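import Pool.Agent.W945.Lc.Stm

set_option autoImplicit false

namespace Pool.Agent.W409.Lc.FOOLT

open Finset Pool.Agent.W945.Pw Pool.Agent.W945.Lc

theorem avg_le {Ω : Type} [Fintype Ω] (f g : Ω → ℝ) (h : ∀ x, f x ≤ g x) : avg f ≤ avg g := by
  unfold avg
  exact div_le_div_of_nonneg_right (Finset.sum_le_sum fun x _ => h x) (Nat.cast_nonneg _)

theorem avg_add {Ω : Type} [Fintype Ω] (f g : Ω → ℝ) :
    avg (fun x => f x + g x) = avg f + avg g := by
  unfold avg
  rw [Finset.sum_add_distrib, add_div]

theorem avg_sum {Ω ι : Type} [Fintype Ω] [Fintype ι] (c : ι → ℝ) (f : ι → Ω → ℝ) :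
    avg (fun x => ∑ i, c i * f i x) = ∑ i, c i * avg (f i) := by
  unfold avg
  rw [Finset.sum_comm, Finset.sum_div]
  refine Finset.sum_congr rfl fun i _ => ?_
  rw [← Finset.mul_sum, mul_div_assoc]

theorem avg_one {Ω : Type} [Fintype Ω] [Nonempty Ω] : avg (fun _ : Ω => (1 : ℝ)) = 1 := by
  unfold avg
  rw [Finset.sum_const, Finset.card_univ, nsmul_eq_mul, mul_one, div_self]
  exact_mod_cast Fintype.card_ne_zero

theorem chi_empty {n : ℕ} (x : Fin n → Bool) : chi ∅ x = 1 := by
  unfold chi
  exact Finset.prod_empty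

/-- flip one bit -/
def flip {n : ℕ} (i : Fin n) : (Fin n → Bool) ≃ (Fin n → Bool) where
  toFun x := Function.update x i (!x i)
  invFun x := Function.update x i (!x i)
  left_inv x := by
    ext j
    by_cases h : j = i
    · subst h; simp
    · simp [h]
  right_inv x := by
    ext j
    by_cases h : j = i
    · subst h; simp
    · simp [h]

theorem sg_not (b : Bool) : sg (!b) = - sg b := by
  cases b <;> simp [sg]

theorem chi_flip {n : ℕ} (S : Finset (Fin n)) (i : Fin n) (hi : i ∈ S) (x : Fin n → Bool) :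
    chi S (flip i x) = - chi S x := by
  unfold chi
  rw [← Finset.mul_prod_erase S _ hi, ← Finset.mul_prod_erase S (fun j => sg (x j)) hi]
  have h1 : flip i x i = !x i := by simp [flip]
  rw [h1, sg_not, neg_mul]
  congr 2
  refine Finset.prod_congr rfl fun j hj => ?_
  have h2 : flip i x j = x j := by
    simp [flip, Finset.ne_of_mem_erase hj]
  rw [h2]

theorem avg_chi {n : ℕ} (S : Finset (Fin n)) (hS : S.Nonempty) :
    avg (fun x : Fin n → Bool => chi S x) = 0 := by
  obtain ⟨i, hi⟩ := hS
  have h1 : ∑ x : Fin n → Bool, chi S x = - ∑ x : Fin n → Bool, chi S x := by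
    rw [← Finset.sum_neg_distrib, ← Equiv.sum_comp (flip i)]
    exact Finset.sum_congr rfl fun x _ => chi_flip S i hi x
  have h2 : ∑ x : Fin n → Bool, chi S x = 0 := by linarith
  unfold avg
  rw [h2, zero_div]

theorem small (h : SPEC.Stm) {n : ℕ} (K : ℕ) (ε : ℝ) {Ω : Type} [Fintype Ω] [Nonempty Ω]
    (D : Ω → Fin n → Bool) (T : DT n) (hT : T.depth ≤ K) (hε : 0 ≤ ε)
    (hD : ∀ S : Finset (Fin n), S.Nonempty → |avg (fun ω => chi S (D ω))| ≤ ε) :
    |avg (fun ω => if T.eval (D ω) = true then (1 : ℝ) else 0) -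
      avg (fun x => if T.eval x = true then (1 : ℝ) else 0)| ≤ 2 ^ K * ε := by
  obtain ⟨c, hc, hc2⟩ := h n T K hT
  have e1 : avg (fun ω => if T.eval (D ω) = true then (1 : ℝ) else 0) =
      ∑ S, c S * avg (fun ω => chi S (D ω)) := by
    rw [← avg_sum]
    congr 1
    funext ω
    exact hc (D ω)
  have e2 : avg (fun x => if T.eval x = true then (1 : ℝ) else 0) =
      ∑ S, c S * avg (fun x : Fin n → Bool => chi S x) := by
    rw [← avg_sum]
    congr 1
    funext x
    exact hc x
  rw [e1, e2, ← Finset.sum_sub_distrib]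
  refine (Finset.abs_sum_le_sum_abs _ _).trans ?_
  calc ∑ S, |c S * avg (fun ω => chi S (D ω)) - c S * avg (fun x : Fin n → Bool => chi S x)|
      ≤ ∑ S, |c S| * ε := by
        refine Finset.sum_le_sum fun S _ => ?_
        rw [← mul_sub, abs_mul]
        refine mul_le_mul_of_nonneg_left ?_ (abs_nonneg _)
        rcases S.eq_empty_or_nonempty with rfl | hS
        · simp only [chi_empty]
          rw [avg_one, avg_one, sub_self, abs_zero]
          exact hε
        · rw [avg_chi S hS, sub_zero]
          exact hD S hS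
    _ = (∑ S, |c S|) * ε := by rw [Finset.sum_mul]
    _ ≤ 2 ^ K * ε := mul_le_mul_of_nonneg_right hc2 hε

theorem main : FOOLT.Stm := by
  intro hC hT hS n K ε z Ω _ _ D T hε hz hok hD
  obtain ⟨T0, hT0, he0⟩ := hC n T K false
  obtain ⟨T1, hT1, he1⟩ := hC n T K true
  have s0 := small hS K ε D T0 hT0 hε hD
  have s1 := small hS K ε D T1 hT1 hε hD
  have htail := hT n T z K hok hz
  have a1 : avg (fun ω => if T.eval (D ω) = true then (1 : ℝ) else 0) ≤
      avg (fun ω => if T1.eval (D ω) = true then (1 : ℝ) else 0) := by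
    apply avg_le
    intro ω
    rw [he1]
    by_cases h1 : T.len (D ω) ≤ K
    · rw [if_pos h1]
    · rw [if_neg h1, if_pos rfl]
      split_ifs <;> norm_num
  have a0 : avg (fun ω => if T0.eval (D ω) = true then (1 : ℝ) else 0) ≤
      avg (fun ω => if T.eval (D ω) = true then (1 : ℝ) else 0) := by
    apply avg_le
    intro ω
    rw [he0]
    by_cases h1 : T.len (D ω) ≤ K
    · rw [if_pos h1]
    · rw [if_neg h1]
      simp only [Bool.false_eq_true, if_false]
      split_ifs <;> norm_num
  have b1 : avg (fun x => if T1.eval x = true then (1 : ℝ) else 0) ≤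
      avg (fun x => if T.eval x = true then (1 : ℝ) else 0) +
        avg (fun x : Fin n → Bool => if K < T.len x then (1 : ℝ) else 0) := by
    rw [← avg_add]
    apply avg_le
    intro x
    rw [he1]
    by_cases h1 : T.len x ≤ K
    · rw [if_pos h1, if_neg (by omega : ¬ K < T.len x), add_zero]
    · rw [if_neg h1, if_pos (by omega : K < T.len x), if_pos rfl]
      split_ifs <;> norm_num
  have b0 : avg (fun x => if T.eval x = true then (1 : ℝ) else 0) ≤
      avg (fun x => if T0.eval x = true then (1 : ℝ) else 0) +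
        avg (fun x : Fin n → Bool => if K < T.len x then (1 : ℝ) else 0) := by
    rw [← avg_add]
    apply avg_le
    intro x
    rw [he0]
    by_cases h1 : T.len x ≤ K
    · rw [if_pos h1, if_neg (by omega : ¬ K < T.len x), add_zero]
    · rw [if_neg h1, if_pos (by omega : K < T.len x)]
      simp only [Bool.false_eq_true, if_false]
      split_ifs <;> norm_num
  rw [abs_le] at s0 s1 ⊢
  constructor
  · linarith [s0.1, s0.2]
  · linarith [s1.1, s1.2]

end Pool.Agent.W409.Lc.FOOLT
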